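import Pool.Agent.Helper72.LSr.N1
import Pool.Agent.Helper72.LSr.C1

/-!
# LR-I6: the identity (1)
-/

namespace Pool.Agent.Helper15.LSr

open Finset
open scoped Classical
open Pool.Agent.Helper72.LSr

variable {V : Type} (G : SimpleGraph V) (S : Finset V)

theorem mem_NH {w x : V} : x ∈ NH G S w ↔ x ∈ S ∧ ¬ G.Adj w x ∧ x ≠ w := by
  unfold NH; rw [mem_filter]

theorem NH_subset (w : V) : NH G S w ⊆ S := filter_subset _ _

theorem sdiff_NH {w : V} (hw : w ∈ S) : S \ NH G S w = insert w (nb G S w) := by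
  ext x
  rw [mem_sdiff, mem_NH, mem_insert, mem_nb]
  constructor
  · rintro ⟨h1, h2⟩
    by_cases h : x = w
    · exact Or.inl h
    · right
      refine ⟨h1, ?_⟩
      by_contra h3
      exact h2 ⟨h1, h3, h⟩
  · rintro (rfl | ⟨h1, h2⟩)
    · exact ⟨hw, fun h => h.2.2 rfl⟩
    · exact ⟨h1, fun h => h.2.1 h2⟩

/-- clique counts of `S` by splitting off the non-neighbours of `w` -/
theorem K_split {w : V} (hw : w ∈ S) (f : V → ℕ) (hf : Set.InjOn f (NH G S w)) (r : ℕ) :
    K G S (r + 1) = K G (nb G S w) (r + 1) + K G (nb G S w) r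
      + ∑ u ∈ NH G S w, K G (nb G S u \ Qf G (NH G S w) f u) r := by
  rw [K_order G S (NH G S w) (NH_subset G S w) f hf r, sdiff_NH G S hw,
    K_insert G (not_mem_nb_self G S w)]
  have : nb G (nb G S w) w = nb G S w := by
    rw [nb_nb, inter_self]
  rw [this]

theorem Qf_subset_nb (R : Finset V) (hR : R ⊆ S) (f : V → ℕ) (u : V) :
    Qf G R f u ⊆ nb G S u := by
  intro x hx
  unfold Qf at hx
  rw [mem_filter] at hx
  rw [mem_nb]
  exact ⟨hR hx.1, hx.2.1⟩

/-- `con` in terms of clique numbers -/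
theorem con_eq (k A B j : ℕ) {u : V} {Q : Finset V} (hQ : Q ⊆ nb G S u) :
    con k A B j G S u Q = K G (nb G S u \ Q) (j + 2) - es k A B (j + 3)
      - (((nb G S u).card : ℤ) - EE k A B) * es k A B (j + 2)
      - es k A B (j + 1) * (K G (nb G S u) 2 - es k A B 3
          - (((nb G S u).card : ℤ) - EE k A B) * EE k A B)
      + es k (A + 1) B (j + 2) * (Q.card : ℤ) := by
  unfold con Pool.Agent.Helper72.LSr.sq Phi Vl cv th nu
  have h1 : ((nb G S u \ Q).card : ℤ) = (nb G S u).card - Q.card := by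
    rw [card_sdiff_of_subset hQ]
    rw [Nat.cast_sub (card_le_card hQ)]
  have h2 := K_two_sdiff G (nb G S u) Q hQ
  have h3 : ∀ x ∈ Q, ((nb G (nb G S u) x).card : ℤ) = ((nb G S u ∩ nb G S x).card : ℤ) := by
    intro x _
    rw [nb_nb]
  rw [sum_congr rfl h3] at h2
  rw [sum_sub_distrib, sum_const, h1, h2, EE_sA]
  have h4 := es_sA k A B (j + 1)
  rw [show j + 1 + 1 = j + 2 from rfl] at h4 ⊢
  rw [h4]
  rw [show j + 1 + 2 = j + 3 from rfl, show j + 2 + 1 = j + 3 from rfl]
  simp only [nsmul_eq_mul]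
  ring

variable {w : V} (hw : w ∈ S)

include hw

theorem card_eq : (S.card : ℤ) = 1 + (nb G S w).card + (NH G S w).card := by
  have h1 : (S \ NH G S w).card = (nb G S w).card + 1 := by
    rw [sdiff_NH G S hw, card_insert_of_notMem (not_mem_nb_self G S w)]
  have h2 := card_sdiff_add_card_eq_card (NH_subset G S w)
  have h3 : (S.card : ℤ) = ((S \ NH G S w).card : ℤ) + (NH G S w).card := by
    rw [← h2]; push_cast; ring
  rw [h3, h1]; push_cast; ring

theorem id_one (k A B j : ℕ) (f : V → ℕ) (hf : Set.InjOn f (NH G S w)) :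
    - Phi k (A + 1) B (j + 2) G S + Phi k A B (j + 2) G (nb G S w)
      + Phi k A B (j + 1) G (nb G S w)
      + ∑ u ∈ NH G S w, con k A B j G S u (Qf G (NH G S w) f u)
      = es k A B (j + 1) * (∑ u ∈ NH G S w, Yv k (A + 1) B G S u
          + Yv k (A + 1) B G S w - k * Yv k (A + 1) B G S w) := by
  -- sums over `NH`
  have hQ : ∀ u ∈ NH G S w, Qf G (NH G S w) f u ⊆ nb G S u := fun u _ =>
    Qf_subset_nb G S (NH G S w) (NH_subset G S w) f u
  rw [sum_congr rfl (fun u hu => con_eq G S k A B j (hQ u hu))]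
  have hKr := K_split G S hw f hf (j + 2)
  have hK2 := K_split G S hw f hf 1
  have hcard := card_eq G S hw
  have hcs : ∀ u ∈ NH G S w, K G (nb G S u \ Qf G (NH G S w) f u) 1
      = ((nb G S u).card : ℤ) - ((Qf G (NH G S w) f u).card : ℤ) := by
    intro u hu
    rw [K_one, card_sdiff_of_subset (hQ u hu), Nat.cast_sub (card_le_card (hQ u hu))]
  rw [sum_congr rfl hcs, sum_sub_distrib, K_one] at hK2
  unfold Yv
  simp only [sum_add_distrib, sum_sub_distrib, ← sum_mul, ← mul_sum, sum_const, nsmul_eq_mul]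
  rw [show (1 : ℕ) + 1 = 2 from rfl] at hK2
  rw [show j + 2 + 1 = j + 3 from rfl] at hKr
  unfold Phi Vl th nu
  rw [show j + 2 + 1 = j + 3 from rfl, show j + 1 + 1 = j + 2 from rfl,
    show j + 2 + 2 = j + 4 from rfl, show j + 1 + 2 = j + 3 from rfl]
  have e4 : es k (A + 1) B (j + 4) = es k A B (j + 4) + k * es k A B (j + 3) := es_sA k A B (j + 3)
  have e3 : es k (A + 1) B (j + 3) = es k A B (j + 3) + k * es k A B (j + 2) := es_sA k A B (j + 2)
  have e2 : es k (A + 1) B (j + 2) = es k A B (j + 2) + k * es k A B (j + 1) := es_sA k A B (j + 1)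
  have e0 : es k (A + 1) B 3 = es k A B 3 + k * EE k A B := es3_sA k A B
  rw [e4, e3, e2, e0, EE_sA, hKr, hK2, hcard]
  ring

end Pool.Agent.Helper15.LSr
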